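import Pool.Agent.Q129.Schonheim

set_option autoImplicit false

/-!
# Schönheim's question on 10-critical graphs without `K_9`

For every `C` there is a `10`-critical `K_9`-free graph on `n` vertices with at most `5 n - C`
edges; the case `C = 11` disproves the inequality `|E| > 5 n - 11`.
-/

theorem Pool.Agent.Results.MP_e338b6_co.FewEdges.result :
    ∀ C : ℕ, ∃ (n : ℕ) (G : SimpleGraph (Fin n)),
      (G.chromaticNumber = 10 ∧ ∀ S : G.Subgraph, S ≠ ⊤ → S.coe.chromaticNumber < 10) ∧
      G.CliqueFree 9 ∧ G.edgeSet.ncard + C ≤ 5 * n := by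
  intro C
  obtain ⟨G, hG, hfree, hed⟩ := Q129.Schonheim.main (26 + C)
  exact ⟨_, G, ⟨hG.1, hG.2⟩, hfree, by omega⟩
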